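import Pool.Agent.H.MP_981724_an.J

set_option autoImplicit false

namespace Pool.Agent.Results.MP_981724_an.NoPlane

open Filter Topology Set BoundedContinuousFunction NormedSpace Pool.Agent.H.MP_981724_an

section
variable {E : Type} [NormedAddCommGroup E] [NormedSpace ℝ E] [CompleteSpace E]

noncomputable def U (A : E →L[ℝ] E) (t : ℝ) : E →L[ℝ] E := exp (t • A)

omit [CompleteSpace E] in
theorem U_comm (A : E →L[ℝ] E) (t : ℝ) (v : E) : A (U A t v) = U A t (A v) :=
  congrArg (fun B : E →L[ℝ] E => B v) ((Commute.refl A).smul_right t).exp_right.eq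

theorem U_sum (A : E →L[ℝ] E) (t : ℝ) (v : E) :
    HasSum (fun k : ℕ => ((k.factorial : ℝ)⁻¹ * t ^ k) • A^[k] v) (U A t v) := by
  have h := (exp_series_hasSum_exp' (𝕂 := ℝ) (t • A)).mapL (ContinuousLinearMap.apply ℝ E v)
  simpa [smul_pow, smul_smul, U] using h

theorem U_an (A : E →L[ℝ] E) (v : E) (x : ℝ) : AnalyticAt ℝ (fun t => U A t v) x :=
  ((ContinuousLinearMap.apply ℝ E v).analyticAt _).comp ((exp_analytic (𝕂 := ℝ) _).comp
    (analyticAt_id.smul analyticAt_const))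

theorem U_der (A : E →L[ℝ] E) (v : E) : HasDerivAt (fun t => U A t v) (A v) 0 := by
  have h := (ContinuousLinearMap.apply ℝ E v).hasFDerivAt.comp_hasDerivAt (0 : ℝ)
    (hasDerivAt_exp_smul_const (𝕂 := ℝ) A 0)
  exact h.congr_deriv (by simp)

omit [CompleteSpace E] in
theorem U_zero (A : E →L[ℝ] E) (v : E) : U A 0 v = v := by simp [U]

end

abbrev Y : Type := (ℕ × ℝ) →ᵇ ℝ

def sh : C(ℕ × ℝ, ℕ × ℝ) := ⟨fun p => (p.1 + 1, p.2), by fun_prop⟩

noncomputable def S : Y →L[ℝ] Y := compContinuousCLM ℝ ℝ sh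

theorem S_apply (F : Y) (n : ℕ) (x : ℝ) : S F (n, x) = F (n + 1, x) := rfl

def X : Submodule ℝ Y where
  carrier := {F | Tendsto F (cocompact _) (𝓝 0) ∧
    ∀ (n : ℕ) (x t : ℝ), F (n, x + t) = U S t F (n, x)}
  add_mem' := fun {F G} hF hG => ⟨add_zero (0 : ℝ) ▸ hF.1.add hG.1, fun n x t => by
    simp [hF.2, hG.2]⟩
  zero_mem' := ⟨tendsto_const_nhds, by simp⟩
  smul_mem' := fun c F hF => ⟨by simpa using hF.1.const_smul c, fun n x t => by simp [hF.2]⟩

theorem X_closed : IsClosed (X : Set Y) := by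
  have : (X : Set Y) = range (ZeroAtInftyContinuousMap.toBCF (α := ℕ × ℝ) (β := ℝ)) ∩
      ⋂ (n : ℕ) (x : ℝ) (t : ℝ), {F : Y | F (n, x + t) = U S t F (n, x)} := by
    ext F
    simp only [mem_inter_iff, mem_iInter, mem_range]
    refine and_congr_left' ⟨fun h => ⟨⟨F.toContinuousMap, h⟩, rfl⟩, ?_⟩
    rintro ⟨f, rfl⟩
    exact f.zero_at_infty'
  rw [this]
  refine ZeroAtInftyContinuousMap.isClosed_range_toBCF.inter (isClosed_iInter fun n =>
    isClosed_iInter fun x => isClosed_iInter fun t => isClosed_eq (evalCLM ℝ _).continuous ?_)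
  exact (evalCLM ℝ (n, x)).continuous.comp (U S t).continuous

theorem S_mem (F : Y) (hF : F ∈ X) : S F ∈ X := by
  refine ⟨hF.1.comp (Isometry.isClosedEmbedding (f := sh) ?_).tendsto_cocompact, fun n x t => ?_⟩
  · refine Isometry.of_dist_eq fun p q => ?_
    simp [sh, Prod.dist_eq, Nat.dist_eq]
  · rw [S_apply, hF.2, ← S_apply, U_comm]

noncomputable def F0 : Y := ofNormedAddCommGroup (fun p : ℕ × ℝ => (J p.1 p.2).re)
  (continuous_prod_of_discrete_left.2 fun n => Complex.continuous_re.comp (J_cont n)) 1 fun p =>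
    ((Complex.abs_re_le_norm _).trans (J_le _ _)).trans (pow_le_one₀ (by norm_num) (by norm_num))

theorem pow_apply (F : Y) (k n : ℕ) (x : ℝ) : S^[k] F (n, x) = F (n + k, x) := by
  induction k generalizing n with
  | zero => rfl
  | succ k ih => rw [Function.iterate_succ_apply', S_apply, ih, add_assoc, add_comm 1 k]

theorem F0_mem : F0 ∈ X := by
  refine ⟨Metric.tendsto_nhds.2 fun ε hε => ?_, fun n x t => ?_⟩
  · obtain ⟨N, hN⟩ := exists_pow_lt_of_lt_one hε (show (4 / 5 : ℝ) < 1 by norm_num)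
    have h := fun n => mem_cocompact.1 (Metric.tendsto_nhds.1 (J_zero n) ε hε)
    choose K hK hK' using h
    refine mem_cocompact.2 ⟨⋃ n ∈ Finset.range N, {n} ×ˢ K n,
      (Finset.range N).isCompact_biUnion fun n _ => isCompact_singleton.prod (hK n), ?_⟩
    rintro ⟨n, x⟩ hp
    simp only [mem_ofPred_eq, dist_zero_right]
    refine (Complex.abs_re_le_norm (J n x)).trans_lt ?_
    by_cases hn : n < N
    · have : x ∉ K n := fun hx => hp (mem_biUnion (Finset.mem_range.2 hn) ⟨rfl, hx⟩)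
      simpa using hK' n this
    · exact ((J_le n x).trans (pow_le_pow_of_le_one (by norm_num) (by norm_num)
        (not_lt.1 hn))).trans_lt hN
  · have h1 := (U_sum S t F0).mapL (evalCLM ℝ (n, x))
    refine (Complex.hasSum_re (J_sum n x t)).unique ?_
    have e : (fun k : ℕ => (((k.factorial : ℂ)⁻¹ * t ^ k) * J (n + k) x).re) =
        fun k : ℕ => evalCLM ℝ (n, x) (((k.factorial : ℝ)⁻¹ * t ^ k) • S^[k] F0) := by
      ext k
      rw [map_smul, evalCLM_apply, pow_apply, smul_eq_mul, ← Complex.ofReal_natCast,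
        ← Complex.ofReal_inv, ← Complex.ofReal_pow, ← Complex.ofReal_mul, Complex.re_ofReal_mul]
      rfl
    rw [e]
    exact h1

theorem an (F : Y) (hF : F ∈ X) (n : ℕ) : AnalyticOnNhd ℝ (fun x : ℝ => F (n, x)) univ := by
  have : (fun x : ℝ => F (n, x)) = fun x : ℝ => evalCLM ℝ (n, 0) (U S x F) := by
    ext x
    rw [evalCLM_apply, ← hF.2, zero_add]
  rw [this]
  exact fun x _ => ((evalCLM ℝ ((n, 0) : ℕ × ℝ) : Y →L[ℝ] ℝ).analyticAt _).comp (U_an S F x)

theorem cnt (F G : Y) (hF : F ∈ X) (hG : G ∈ X) : {p | F p ^ 2 + G p ^ 2 = 1}.Countable := by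
  have h : ∀ n : ℕ, {x : ℝ | F (n, x) ^ 2 + G (n, x) ^ 2 = 1}.Countable := by
    intro n
    have h1 : AnalyticOnNhd ℝ (fun x : ℝ => F (n, x) ^ 2 + G (n, x) ^ 2 - 1) univ :=
      (((an F hF n).pow 2).add ((an G hG n).pow 2)).sub analyticOnNhd_const
    have h2 : Tendsto (fun x : ℝ => ((n, x) : ℕ × ℝ)) (cocompact _) (cocompact _) :=
      (Isometry.isClosedEmbedding (Isometry.of_dist_eq fun p q => by simp)).tendsto_cocompact
    have h3 := (((hF.1.comp h2).pow 2).add ((hG.1.comp h2).pow 2)).eventually_lt_const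
      (show (0 : ℝ) ^ 2 + 0 ^ 2 < 1 by norm_num)
    obtain ⟨x, hx⟩ := h3.exists
    have h4 := (mem_codiscrete'.1 (h1.preimage_zero_mem_codiscrete (x := x) (sub_ne_zero.2 hx.ne))).2
    have h5 := (HereditarilyLindelofSpace.isLindelof _).countable_of_isDiscrete h4
    refine h5.mono fun y hy => ?_
    simpa [sub_eq_zero] using hy
  refine (countable_iUnion fun n => (h n).image fun x => (n, x)).mono ?_
  rintro ⟨n, x⟩ hp
  exact mem_iUnion.2 ⟨n, x, hp, rfl⟩

theorem att (F : Y) (hF : F ∈ X) (h : ‖F‖ = 1) : ∃ p, F p ^ 2 = 1 := by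
  obtain ⟨q, hq⟩ : ∃ q, F q ≠ 0 := by
    by_contra h0
    push Not at h0
    rw [show F = 0 from BoundedContinuousFunction.ext h0] at h
    simp at h
  obtain ⟨p, hp⟩ := F.continuous.norm.exists_forall_ge' q
    ((hF.1.norm.eventually_lt_const (by simpa using hq)).mono fun _ h => h.le)
  refine ⟨p, ?_⟩
  rw [← sq_abs, ← Real.norm_eq_abs, le_antisymm (F.norm_coe_le_norm p)
    ((norm_le (norm_nonneg _)).2 hp), h, one_pow]

theorem result : ∃ (X : Type) (_ : NormedAddCommGroup X) (_ : NormedSpace ℝ X)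
    (_ : CompleteSpace X) (T : X →L[ℝ] X), T ≠ 0 ∧
    (∀ (x : X) (φ : X →L[ℝ] ℝ), ‖x‖ = 1 → ‖φ‖ = 1 → φ x = 1 → φ (T x) = 0) ∧
    IsEmpty (EuclideanSpace ℝ (Fin 2) →ₗᵢ[ℝ] X) := by
  refine ⟨X, inferInstance, inferInstance, X_closed.completeSpace_coe, S.restrict S_mem,
    fun h => J_ne ?_, fun F φ hF hφ h1 => ?_, ⟨fun L => ?_⟩⟩
  · exact congrArg (fun T : X →L[ℝ] X => (T ⟨F0, F0_mem⟩).1 (1, 0)) h
  · obtain ⟨g, hg, hn⟩ := exists_extension_norm_eq X φ
    have hd := g.hasFDerivAt.comp_hasDerivAt (0 : ℝ) (U_der S F.1)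
    have hm := IsLocalMax.hasDerivAt_eq_zero (Eventually.of_forall fun t => ?_) hd
    · rw [← hg]
      exact hm
    · simp only [Function.comp, U_zero, hg, h1]
      refine (le_abs_self _).trans ((g.le_opNorm _).trans ?_)
      rw [hn, hφ, one_mul, norm_le zero_le_one]
      rintro ⟨n, x⟩
      rw [← F.2.2, ← hF]
      exact F.1.norm_coe_le_norm _
  · set F := L !₂[1, 0]
    set G := L !₂[0, 1]
    have h0 : ∀ a b : ℝ, ‖a • F + b • G‖ = √(a ^ 2 + b ^ 2) := fun a b => by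
      rw [← map_smul, ← map_smul, ← map_add, L.norm_map, EuclideanSpace.norm_eq]
      simp
    have h1 : ∀ p, F.1 p ^ 2 + G.1 p ^ 2 ≤ 1 := fun p => by
      have h := (F.1 p • F + G.1 p • G).1.norm_coe_le_norm p
      rw [show ‖(F.1 p • F + G.1 p • G).1‖ = _ from h0 _ _] at h
      have h2 := (le_abs_self _).trans h
      have h3 := Real.sq_sqrt (show 0 ≤ F.1 p ^ 2 + G.1 p ^ 2 by positivity)
      simp at h2
      nlinarith [Real.sqrt_nonneg (F.1 p ^ 2 + G.1 p ^ 2)]
    have h2 := ((cnt F.1 G.1 F.2 G.2).image fun p => F.1 p ^ 2).mono (s₁ := Icc 0 1) fun u hu => by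
      have ha := Real.sq_sqrt hu.1
      have hb := Real.sq_sqrt (sub_nonneg.2 hu.2)
      obtain ⟨p, hp⟩ := att (√u • F + √(1 - u) • G).1 (√u • F + √(1 - u) • G).2
        ((h0 _ _).trans (by simp [ha, hb]))
      have h3 := h1 p
      simp only [Submodule.coe_add, Submodule.coe_smul, BoundedContinuousFunction.add_apply,
        BoundedContinuousFunction.smul_apply, smul_eq_mul] at hp
      generalize √u = a at *
      generalize √(1 - u) = b at *
      have h4 : (a * G.1 p - b * F.1 p) ^ 2 = 0 := by nlinarith [sq_nonneg (a * G.1 p - b * F.1 p)]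
      have h5 : F.1 p ^ 2 + G.1 p ^ 2 = 1 := by nlinarith
      refine ⟨p, h5, ?_⟩
      have h6 := pow_eq_zero_iff (two_ne_zero) |>.1 h4
      have h7 : a ^ 2 * G.1 p ^ 2 = b ^ 2 * F.1 p ^ 2 := by
        rw [← mul_pow, ← mul_pow, sub_eq_zero.1 h6]
      simp only
      nlinarith
    rw [Cardinal.Real.Icc_countable_iff] at h2
    norm_num at h2

end Pool.Agent.Results.MP_981724_an.NoPlane
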